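import Pool.Agent.Helper34.SD.Defs

/-!
# Project SD, module E1: subadditivity of `nal`
-/

set_option autoImplicit false

namespace Pool.Agent.Helper55.SD

open Pool.Agent.Helper34.SD Pool.Agent.Helper34.PT

private theorem nal_append : ∀ (m : ℕ) (U W : List Bool), nal m (U ++ W) ≤ nal m U + nal m W := by
  intro m
  induction m with
  | zero =>
    intro U W
    simp only [nal, List.mem_append]
    by_cases h1 : true ∈ U <;> by_cases h2 : true ∈ W <;> simp [h1, h2]
  | succ m ih =>
    intro U W
    have h : ∀ s : Fin 3, nal m (sec (U ++ W) s) ≤ nal m (sec U s) + nal m (sec W (s + ext U 0)) := by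
      intro s
      rw [sec_append, ext_shift U s]
      exact ih _ _
    have h0 := h 0
    have h1 := h 1
    have h2 := h 2
    have hs : nal m (sec W (0 + ext U 0)) + nal m (sec W (1 + ext U 0)) +
        nal m (sec W (2 + ext U 0)) = nal m (sec W 0) + nal m (sec W 1) + nal m (sec W 2) := by
      generalize ext U 0 = e
      fin_cases e
      · rfl
      · show nal m (sec W 1) + nal m (sec W 2) + nal m (sec W 0) = _
        ring
      · show nal m (sec W 2) + nal m (sec W 0) + nal m (sec W 1) = _
        ring
    simp only [nal]
    omega

private theorem nal_nil (m : ℕ) : nal m [] = 0 := by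
  induction m with
  | zero => simp [nal]
  | succ m ih => simp only [nal, sec, ih]

private theorem nal_false (m : ℕ) : nal m [false] = 0 := by
  induction m with
  | zero => simp [nal]
  | succ m ih =>
    show nal m [false] + nal m [false] + nal m [] = 0
    rw [ih, nal_nil]

/-- Module E1. -/
theorem hE1 : Stmt_E1 := by
  intro m W
  induction W with
  | nil =>
    rw [nal_nil]
    exact Nat.zero_le _
  | cons c W ih =>
    have h := nal_append m [c] W
    rw [List.singleton_append] at h
    cases c with
    | false =>
      rw [nal_false, zero_add] at h
      have e : (false :: W).count true = W.count true := by simp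
      rw [e]
      exact h.trans ih
    | true =>
      have e : (true :: W).count true = W.count true + 1 := by simp
      rw [e, add_mul, one_mul]
      omega

end Pool.Agent.Helper55.SD
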